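import Pool.Agent.Helper67.Wav.Four
import Pool.Agent.Helper79.Wav.Lat

/-!
# Module NB: lattice sums of a decaying function, decay of the Fourier transform
-/

open MeasureTheory
open scoped FourierTransform RealInnerProductSpace Matrix ENNReal ComplexConjugate

noncomputable section

namespace Wav

/-- Module NB. -/
theorem lattice_sup {n : ℕ} {N C : ℝ} (hN : (n : ℝ) < N) {Ψ : E n → ℂ}
    (hΨ : ∀ ξ, ‖Ψ ξ‖ ≤ C * (1 + ‖ξ‖) ^ (-N)) :
    ∃ C' : ℝ≥0∞, C' ≠ ∞ ∧ ∀ (T : Set (E n)) (a : ℝ≥0∞), (∀ ξ ∈ T, ‖Ψ ξ‖ₑ ≤ a) → ∀ η : E n,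
      ∑' m : Fin n → ℤ, T.indicator (fun ξ => ‖Ψ ξ‖ₑ ^ 2) (η + ivec m) ≤ C' * a := by
  obtain ⟨C0, hC0⟩ := lattice_sum n N hN
  refine ⟨ENNReal.ofReal (|C| * C0), ENNReal.ofReal_ne_top, ?_⟩
  intro T a hT η
  obtain ⟨hs, hle⟩ := hC0 η
  have hterm : ∀ m : Fin n → ℤ, T.indicator (fun ξ => ‖Ψ ξ‖ₑ ^ 2) (η + ivec m) ≤
      ENNReal.ofReal (|C| * (1 + ‖η + ivec m‖) ^ (-N)) * a := by
    intro m
    by_cases hm : η + ivec m ∈ T
    · rw [Set.indicator_of_mem hm, sq]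
      apply mul_le_mul' _ (hT _ hm)
      rw [← ofReal_norm_eq_enorm]
      apply ENNReal.ofReal_le_ofReal
      refine (hΨ _).trans ?_
      exact mul_le_mul_of_nonneg_right (le_abs_self C) (by positivity)
    · rw [Set.indicator_of_notMem hm]
      exact zero_le
  calc ∑' m : Fin n → ℤ, T.indicator (fun ξ => ‖Ψ ξ‖ₑ ^ 2) (η + ivec m)
      ≤ ∑' m : Fin n → ℤ, ENNReal.ofReal (|C| * (1 + ‖η + ivec m‖) ^ (-N)) * a :=
        ENNReal.tsum_le_tsum hterm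
    _ = (∑' m : Fin n → ℤ, ENNReal.ofReal (|C| * (1 + ‖η + ivec m‖) ^ (-N))) * a :=
        ENNReal.tsum_mul_right
    _ = ENNReal.ofReal (∑' m : Fin n → ℤ, |C| * (1 + ‖η + ivec m‖) ^ (-N)) * a := by
        rw [ENNReal.ofReal_tsum_of_nonneg (fun m => by positivity) (hs.mul_left _)]
    _ ≤ ENNReal.ofReal (|C| * C0) * a := by
        gcongr
        rw [tsum_mul_left]
        exact mul_le_mul_of_nonneg_left hle (abs_nonneg _)

/-- Module NB. -/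
theorem WellLocalized.fourier_bound {n : ℕ} {N : ℝ} {ψ : E n → ℂ} (h : WellLocalized N ψ)
    (hN : (n : ℝ) < N) :
    ∃ C : ℝ, 0 < C ∧ ∀ ξ : E n, ‖𝓕 ψ ξ‖ ≤ C * (1 + ‖ξ‖) ^ (-N) := by
  obtain ⟨C, R, hC⟩ := h.fourier
  have hN0 : 0 ≤ N := le_trans (Nat.cast_nonneg n) hN.le
  set R' := max R 1 with hR'
  have hR1 : 1 ≤ R' := le_max_right _ _
  set K := ∫ x, ‖ψ x‖ with hK
  have hK0 : 0 ≤ K := integral_nonneg fun x => norm_nonneg _
  have hbd : ∀ ξ : E n, ‖𝓕 ψ ξ‖ ≤ K := by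
    intro ξ
    exact VectorFourier.norm_fourierIntegral_le_integral_norm _ _ _ _ _
  refine ⟨K * (1 + R') ^ N + |C| * 2 ^ N + 1, by positivity, fun ξ => ?_⟩
  have hn := norm_nonneg ξ
  have h0 : 0 ≤ (1 + ‖ξ‖) ^ (-N) := by positivity
  by_cases hξ : ‖ξ‖ ≤ R'
  · have h1 : 1 ≤ (1 + R') ^ N * (1 + ‖ξ‖) ^ (-N) := by
      rw [Real.rpow_neg (by positivity), ← div_eq_mul_inv, one_le_div (by positivity)]
      exact Real.rpow_le_rpow (by positivity) (by linarith) hN0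
    calc ‖𝓕 ψ ξ‖ ≤ K * 1 := by rw [mul_one]; exact hbd ξ
      _ ≤ K * ((1 + R') ^ N * (1 + ‖ξ‖) ^ (-N)) := mul_le_mul_of_nonneg_left h1 hK0
      _ = (K * (1 + R') ^ N) * (1 + ‖ξ‖) ^ (-N) := by ring
      _ ≤ _ := by
        apply mul_le_mul_of_nonneg_right _ h0
        have : 0 ≤ |C| * 2 ^ N := by positivity
        linarith
  · push Not at hξ
    have hR : R ≤ ‖ξ‖ := (le_max_left R 1).trans hξ.le
    have h1 : 1 ≤ ‖ξ‖ := hR1.trans hξ.le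
    have hxp : 0 < ‖ξ‖ := by linarith
    have e1 : ‖ξ‖ ^ (-N) ≤ 2 ^ N * (1 + ‖ξ‖) ^ (-N) := by
      rw [Real.rpow_neg hxp.le, Real.rpow_neg (by linarith), ← div_eq_mul_inv,
        ← Real.div_rpow (by norm_num) (by linarith), ← Real.inv_rpow hxp.le]
      apply Real.rpow_le_rpow (by positivity) _ hN0
      rw [inv_eq_one_div, div_le_div_iff₀ hxp (by linarith)]
      linarith
    calc ‖𝓕 ψ ξ‖ ≤ C * ‖ξ‖ ^ (-N) := hC ξ hR
      _ ≤ |C| * (2 ^ N * (1 + ‖ξ‖) ^ (-N)) :=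
          mul_le_mul (le_abs_self C) e1 (by positivity) (abs_nonneg _)
      _ = (|C| * 2 ^ N) * (1 + ‖ξ‖) ^ (-N) := by ring
      _ ≤ _ := by
        apply mul_le_mul_of_nonneg_right _ h0
        have : 0 ≤ K * (1 + R') ^ N := by positivity
        linarith

end Wav
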