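import Pool.Agent.Helper5.Wav.NF
import Pool.Agent.Helper22.Wav.Marg
import Pool.Agent.Helper26.Wav.NB
import Pool.Agent.Helper40.Wav.NH
import Pool.Agent.Helper98.Wav.ND

/-!
# Module N2: no well-localized wavelet if there is a gap
-/

open MeasureTheory
open scoped FourierTransform RealInnerProductSpace Matrix ENNReal ComplexConjugate

noncomputable section

namespace Wav

namespace N2Aux

theorem act_cont {n : ℕ} (M : Matrix (Fin n) (Fin n) ℝ) : Continuous (act M : E n → E n) := by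
  rw [act_eq]
  exact LinearMap.continuous_of_finiteDimensional _

theorem fourier_cont {n : ℕ} {f : E n → ℂ} (h1 : Integrable f) : Continuous (𝓕 f) := by
  have := VectorFourier.fourierIntegral_continuous (μ := (volume : Measure (E n)))
    Real.continuous_fourierChar (L := innerₗ (E n)) continuous_inner h1
  exact this

theorem fourier_memLp {n : ℕ} {f : E n → ℂ} (h1 : Integrable f) (h2 : MemLp f 2 volume) :
    MemLp (𝓕 f) 2 volume := by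
  have h := fourier_toLp h1 h2
  exact (memLp_congr_ae h).1 (Lp.memLp _)

/-- common decay constant -/
theorem common_bound {n L : ℕ} {N : ℝ} {Ψ : Fin L → E n → ℂ}
    (h : ∀ l, ∃ C : ℝ, 0 < C ∧ ∀ ξ : E n, ‖Ψ l ξ‖ ≤ C * (1 + ‖ξ‖) ^ (-N)) :
    ∃ C : ℝ, 0 ≤ C ∧ ∀ l ξ, ‖Ψ l ξ‖ ≤ C * (1 + ‖ξ‖) ^ (-N) := by
  choose C hC hb using h
  refine ⟨∑ l, C l, Finset.sum_nonneg fun l _ => (hC l).le, fun l ξ => (hb l ξ).trans ?_⟩
  exact mul_le_mul_of_nonneg_right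
    (Finset.single_le_sum (fun l _ => (hC l).le) (Finset.mem_univ l)) (by positivity)

/-- common Hölder exponent -/
theorem common_holder {n L : ℕ} {Ψ : Fin L → E n → ℂ} {K : ℝ} (hK : ∀ l ξ, ‖Ψ l ξ‖ ≤ K)
    (h : ∀ l, ∃ C α : ℝ, 0 < α ∧ α ≤ 1 ∧ ∀ ξ ξ' : E n, ‖Ψ l ξ - Ψ l ξ'‖ ≤ C * ‖ξ - ξ'‖ ^ α) :
    ∃ C α : ℝ, 0 < α ∧ ∀ l, ∀ ξ ξ' : E n, ‖Ψ l ξ - Ψ l ξ'‖ ≤ C * ‖ξ - ξ'‖ ^ α := by
  choose C α hα hα1 hb using h
  rcases Nat.eq_zero_or_pos L with hL | hL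
  · subst hL
    exact ⟨0, 1, one_pos, fun l => l.elim0⟩
  have hne : (Finset.univ : Finset (Fin L)).Nonempty := ⟨⟨0, hL⟩, Finset.mem_univ _⟩
  set β := Finset.univ.inf' hne α with hβ
  have hβ0 : 0 < β := by
    rw [hβ, Finset.lt_inf'_iff]
    exact fun l _ => hα l
  have hβl : ∀ l, β ≤ α l := fun l => Finset.inf'_le _ (Finset.mem_univ l)
  refine ⟨(∑ l, |C l|) + 2 * |K|, β, hβ0, fun l ξ ξ' => ?_⟩
  have hCl : |C l| ≤ ∑ l, |C l| :=
    Finset.single_le_sum (f := fun l => |C l|) (fun l _ => abs_nonneg _) (Finset.mem_univ l)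
  have hS : 0 ≤ ∑ l, |C l| := Finset.sum_nonneg fun l _ => abs_nonneg _
  set d := ‖ξ - ξ'‖ with hd
  have hd0 : 0 ≤ d := norm_nonneg _
  by_cases h1 : d ≤ 1
  · have h2 : d ^ α l ≤ d ^ β := by
      rcases hd0.eq_or_lt with h0 | h0
      · rw [← h0, Real.zero_rpow (hα l).ne', Real.zero_rpow hβ0.ne']
      · exact Real.rpow_le_rpow_of_exponent_ge h0 h1 (hβl l)
    calc ‖Ψ l ξ - Ψ l ξ'‖ ≤ C l * d ^ α l := hb l ξ ξ'
      _ ≤ |C l| * d ^ α l := mul_le_mul_of_nonneg_right (le_abs_self _) (by positivity)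
      _ ≤ |C l| * d ^ β := mul_le_mul_of_nonneg_left h2 (abs_nonneg _)
      _ ≤ ((∑ l, |C l|) + 2 * |K|) * d ^ β := by
        apply mul_le_mul_of_nonneg_right _ (by positivity)
        have := abs_nonneg K
        linarith
  · push Not at h1
    have h2 : 1 ≤ d ^ β := Real.one_le_rpow h1.le hβ0.le
    have h3 : ‖Ψ l ξ - Ψ l ξ'‖ ≤ 2 * |K| := by
      have a1 := hK l ξ
      have a2 := hK l ξ'
      have a3 := norm_sub_le (Ψ l ξ) (Ψ l ξ')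
      have a4 := le_abs_self K
      linarith
    calc ‖Ψ l ξ - Ψ l ξ'‖ ≤ 2 * |K| := h3
      _ ≤ (2 * |K|) * d ^ β := le_mul_of_one_le_right (by positivity) h2
      _ ≤ ((∑ l, |C l|) + 2 * |K|) * d ^ β := by
        apply mul_le_mul_of_nonneg_right _ (by positivity)
        linarith

/-- orthogonality of the basis as an integral -/
theorem basis_orth {n : ℕ} {ι : Type*}
    (b : HilbertBasis ι ℂ (Lp ℂ 2 (volume : Measure (E n)))) {s t : ι} (hst : s ≠ t)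
    {f g : E n → ℂ} (hf : (b s : E n → ℂ) =ᵐ[volume] f) (hg : (b t : E n → ℂ) =ᵐ[volume] g) :
    ∫ ξ, conj (f ξ) * g ξ = 0 := by
  have h : inner ℂ (b s) (b t) = 0 := b.orthonormal.2 hst
  rw [MeasureTheory.L2.inner_def] at h
  rw [← h]
  apply integral_congr_ae
  filter_upwards [hf, hg] with ξ h1 h2
  rw [h1, h2]
  simp [mul_comm]

/-- basis functions are not zero almost everywhere -/
theorem basis_ne {n : ℕ} {ι : Type*}
    (b : HilbertBasis ι ℂ (Lp ℂ 2 (volume : Measure (E n)))) (s : ι)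
    {f : E n → ℂ} (hf : (b s : E n → ℂ) =ᵐ[volume] f) : ¬ f =ᵐ[volume] 0 := by
  intro h
  have h1 : b s = 0 := by
    apply Lp.ext
    exact (hf.trans h).trans (Lp.coeFn_zero _ _ _).symm
  have h2 := b.orthonormal.1 s
  rw [h1, norm_zero] at h2
  exact zero_ne_one h2

end N2Aux

open N2Aux in
/-- Module N2. -/
theorem no_wavelet_of_gap {n L : ℕ} (hn : 2 ≤ n) {A : Matrix (Fin n) (Fin n) ℝ}
    (hA : Expansive A) {N : ℝ} (hN : (n : ℝ) < N) (F : Set ℤ) (hF : F.Nonempty)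
    (hF' : Fᶜ.Nonempty)
    (hgap : ∀ i ∈ F, ∀ j ∉ F, ∀ p q : Fin n → ℤ,
      act (Aᵀ ^ i) (ivec p) = act (Aᵀ ^ j) (ivec q) → p = 0)
    (ψ : Fin L → E n → ℂ) (hψ : ∀ l, WellLocalized N (ψ l)) : ¬ IsONWavelet A ψ := by
  intro hw
  have hdet := expansive_det hA
  have hN0 : 0 < N := lt_of_le_of_lt (Nat.cast_nonneg n) hN
  have h1 : ∀ l, Integrable (ψ l) := fun l => (hψ l).integrable hN
  have h2 : ∀ l, MemLp (ψ l) 2 volume := fun l => (hψ l).memLp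
  obtain ⟨b, hb⟩ := (transfer hdet h1 h2).1 hw
  obtain ⟨Ψ, hΨ⟩ : ∃ Ψ : Fin L → E n → ℂ, Ψ = fun l => 𝓕 (ψ l) := ⟨_, rfl⟩
  have hΨl : ∀ l, 𝓕 (ψ l) = Ψ l := fun l => by rw [hΨ]
  simp only [hΨl] at hb
  have hcont : ∀ l, Continuous (Ψ l) := fun l => by
    rw [← hΨl]
    exact fourier_cont (h1 l)
  have hmem : ∀ l, MemLp (Ψ l) 2 volume := fun l => by
    rw [← hΨl]
    exact fourier_memLp (h1 l) (h2 l)
  obtain ⟨C, hC0, hC⟩ := common_bound (Ψ := Ψ) (N := N) fun l => by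
    rw [← hΨl]
    exact (hψ l).fourier_bound hN
  obtain ⟨C', α, hα, hH⟩ := common_holder (Ψ := Ψ) (K := C) (fun l ξ => by
    refine (hC l ξ).trans ?_
    have : (1 + ‖ξ‖) ^ (-N) ≤ 1 := Real.rpow_le_one_of_one_le_of_nonpos
      (by have := norm_nonneg ξ; linarith) (by linarith)
    nlinarith) fun l => by
    rw [← hΨl]
    exact fourier_holder (ψ l) (h1 l) hN (hψ l).decay
  -- the products vanish
  have hprod : ∀ l l', ∀ i ∈ F, ∀ j ∉ F, ∀ ξ : E n,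
      Ψ l (act (Aᵀ ^ (-i)) ξ) * Ψ l' (act (Aᵀ ^ (-j)) ξ) = 0 := by
    intro l l' i hi j hj ξ
    have hij : i ≠ j := fun h => hj (h ▸ hi)
    refine product_zero hdet (hmem l) (hmem l') (hcont l) (hcont l') i j ?_
      (hgap i hi j hj) ξ
    intro k k'
    exact basis_orth b (s := (l, i, k)) (t := (l', j, k'))
      (fun h => hij (Prod.ext_iff.1 (Prod.ext_iff.1 h).2).1) (hb l i k) (hb l' j k')
  have hnz : ∀ (G : Set ℤ), G.Nonempty → Nonempty (Fin L) →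
      ∃ l, ∃ i ∈ G, ∃ ξ : E n, ξ ≠ 0 ∧ Ψ l (act (Aᵀ ^ (-i)) ξ) ≠ 0 := by
    rintro G ⟨i, hi⟩ ⟨l⟩
    by_contra hcon
    push Not at hcon
    apply basis_ne b (l, i, 0) (hb l i 0)
    have hne : (1 : ℕ) ≤ n := by omega
    have : Nontrivial (E n) := by
      have : Nonempty (Fin n) := ⟨⟨0, by omega⟩⟩
      infer_instance
    have h0 : ∀ᵐ ξ : E n, ξ ≠ 0 := by
      rw [ae_iff]
      simp
    filter_upwards [h0] with ξ hξ
    rw [faff, Matrix.transpose_zpow, hcon l i hi ξ hξ, mul_zero]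
    rfl
  -- a common zero
  obtain ⟨ξ₀, hξ₀, hzero⟩ : ∃ ξ₀ : E n, ξ₀ ≠ 0 ∧ ∀ l, ∀ j : ℤ, Ψ l (act (Aᵀ ^ (-j)) ξ₀) = 0 := by
    by_contra hcon
    push Not at hcon
    have hne0 : ∃ x : E n, x ≠ 0 := by
      have : Nonempty (Fin n) := ⟨⟨0, by omega⟩⟩
      exact exists_ne 0
    have hL : Nonempty (Fin L) := by
      obtain ⟨x, hx⟩ := hne0
      obtain ⟨l, -⟩ := hcon x hx
      exact ⟨l⟩
    have hopen : ∀ G : Set ℤ, IsOpen {ξ : E n | ∃ l, ∃ i ∈ G, Ψ l (act (Aᵀ ^ (-i)) ξ) ≠ 0} := by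
      intro G
      have e : {ξ : E n | ∃ l, ∃ i ∈ G, Ψ l (act (Aᵀ ^ (-i)) ξ) ≠ 0} =
          ⋃ l, ⋃ i ∈ G, {ξ : E n | Ψ l (act (Aᵀ ^ (-i)) ξ) ≠ 0} := by
        ext ξ
        simp
      rw [e]
      refine isOpen_iUnion fun l => isOpen_biUnion fun i _ => ?_
      exact isOpen_ne_fun ((hcont l).comp (act_cont _)) continuous_const
    have hconn : IsPreconnected ({0}ᶜ : Set (E n)) := by
      apply (isConnected_compl_singleton_of_one_lt_rank _ 0).isPreconnected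
      rw [← Module.finrank_eq_rank, finrank_euclideanSpace_fin]
      exact_mod_cast hn
    have hcov : ({0}ᶜ : Set (E n)) ⊆ {ξ : E n | ∃ l, ∃ i ∈ F, Ψ l (act (Aᵀ ^ (-i)) ξ) ≠ 0} ∪
        {ξ : E n | ∃ l, ∃ i ∈ Fᶜ, Ψ l (act (Aᵀ ^ (-i)) ξ) ≠ 0} := by
      intro ξ hξ
      obtain ⟨l, j, hj⟩ := hcon ξ hξ
      by_cases hjF : j ∈ F
      · exact Or.inl ⟨l, j, hjF, hj⟩
      · exact Or.inr ⟨l, j, hjF, hj⟩
    obtain ⟨l1, i1, hi1, x1, hx1, hx1'⟩ := hnz F hF hL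
    obtain ⟨l2, i2, hi2, x2, hx2, hx2'⟩ := hnz Fᶜ hF' hL
    obtain ⟨x, hx, ⟨l, i, hi, hli⟩, ⟨l', j, hj, hlj⟩⟩ := hconn _ _ (hopen F) (hopen Fᶜ) hcov
      ⟨x1, hx1, l1, i1, hi1, hx1'⟩ ⟨x2, hx2, l2, i2, hi2, hx2'⟩
    exact mul_ne_zero hli hlj (hprod l l' i hi j hj x)
  -- lattice bound
  have hlat0 := fun l => lattice_sup hN (hC l)
  choose D hD hD' using hlat0
  have hDtop : ∑ l, D l ≠ ∞ := by
    rw [ENNReal.sum_ne_top]
    exact fun l _ => hD l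
  obtain ⟨K, hK⟩ : ∃ K : ℝ≥0∞, K = (L : ℝ≥0∞) * ∑ l, D l := ⟨_, rfl⟩
  have hKtop : K ≠ ∞ := by
    rw [hK]
    exact ENNReal.mul_ne_top (ENNReal.natCast_ne_top L) hDtop
  have hK1 : K + 1 ≠ ∞ := ENNReal.add_ne_top.2 ⟨hKtop, ENNReal.one_ne_top⟩
  have hr : 0 < ‖ξ₀‖ / 2 := by
    have := norm_pos_iff.2 hξ₀
    linarith
  obtain ⟨δ, hδ, a, ha, hbd⟩ := near_small hA hN0 hC hα hH hr
    (ε := (K + 1)⁻¹) (ENNReal.inv_pos.2 hK1)
  obtain ⟨S, hS⟩ : ∃ S, S = Metric.ball ξ₀ (min δ (‖ξ₀‖ / 2)) := ⟨_, rfl⟩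
  have hSm : MeasurableSet S := by rw [hS]; exact measurableSet_ball
  have hSpos : 0 < volume S := by
    rw [hS]
    exact Metric.measure_ball_pos _ _ (lt_min hδ hr)
  have hSfin : volume S ≠ ∞ := by
    rw [hS]
    exact measure_ball_lt_top.ne
  have hslab := slab_zero hdet hcont b hb Set.univ hSm
    (fun l i _ k l' j hj => absurd (Set.mem_univ j) hj) (C := ∑ l, D l) hDtop
    (fun l T c hT η => (hD' l T c hT η).trans (by
      gcongr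
      exact Finset.single_le_sum (fun l _ => zero_le) (Finset.mem_univ l))) a
    (fun l j _ ξ hξ => by
      rw [hS, Metric.mem_ball, dist_eq_norm] at hξ
      apply hbd l j ξ ξ₀ _ (hξ.le.trans (min_le_left _ _)) (hzero l j)
      have h3 : ‖ξ - ξ₀‖ < ‖ξ₀‖ / 2 := lt_of_lt_of_le hξ (min_le_right _ _)
      have h4 : ‖ξ₀‖ ≤ ‖ξ‖ + ‖ξ - ξ₀‖ := by
        have h5 : ξ₀ = ξ - (ξ - ξ₀) := by abel
        calc ‖ξ₀‖ = ‖ξ - (ξ - ξ₀)‖ := by rw [← h5]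
          _ ≤ _ := norm_sub_le _ _
      linarith)
    (by
      rw [← hK]
      calc K * ∑' j, a j ≤ K * (K + 1)⁻¹ := by gcongr
        _ = K / (K + 1) := (div_eq_mul_inv _ _).symm
        _ < 1 := by
          rw [ENNReal.div_lt_iff (Or.inl (by simp)) (Or.inl hK1), one_mul]
          exact ENNReal.lt_add_right hKtop one_ne_zero)
    (indicatorConstLp 2 hSm hSfin (1 : ℂ)) (fun l j k hj => absurd (Set.mem_univ j) hj)
  have hcoe := indicatorConstLp_coeFn (p := 2) (hs := hSm) (hμs := hSfin) (c := (1 : ℂ))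
  have hnot : ∀ᵐ ξ : E n, ξ ∉ S := by
    filter_upwards [hslab, hcoe] with ξ h3 h4 hξ
    have h5 := h3 hξ
    rw [h4, Set.indicator_of_mem hξ] at h5
    exact one_ne_zero h5
  rw [ae_iff] at hnot
  simp only [not_not, Set.setOf_mem_eq] at hnot
  exact hSpos.ne' hnot

end Wav
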